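import Pool.Agent.Helper97.TI.Defs

set_option autoImplicit false
open MvPolynomial

namespace TI

theorem PM_going_down {R S : Type} [CommRing R] [IsIntegrallyClosed R] [CommRing S]
    [IsDomain S] (ψ : R →+* S) (hψ : Function.Injective ψ) (hint : ψ.IsIntegral) (p : Ideal R)
    [p.IsPrime] (Q : Ideal S) [Q.IsPrime] (hpQ : p ≤ Q.comap ψ) :
    ∃ P ≤ Q, P.IsPrime ∧ P.comap ψ = p := by
  let _ := ψ.toAlgebra
  have : Algebra.IsIntegral R S := ⟨hint⟩
  have : FaithfulSMul R S := (faithfulSMul_iff_algebraMap_injective R S).2 hψ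
  have : Q.LiesOver (Q.comap ψ) := ⟨rfl⟩
  obtain ⟨P, h1, h2, h3⟩ := Ideal.exists_ideal_le_liesOver_of_le (p := p) (q := Q.comap ψ) Q hpQ
  exact ⟨P, h1, h2, h3.over.symm⟩

theorem PM_lying_over {R S : Type} [CommRing R] [CommRing S]
    (ψ : R →+* S) (hψ : Function.Injective ψ) (hint : ψ.IsIntegral) (p : Ideal R)
    [p.IsPrime] : ∃ P : Ideal S, P.IsPrime ∧ P.comap ψ = p := by
  let _ := ψ.toAlgebra
  have : Algebra.IsIntegral R S := ⟨hint⟩
  obtain ⟨Q, -, h2, h3⟩ := Ideal.exists_ideal_over_prime_of_isIntegral p (⊥ : Ideal S) (by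
    rw [← RingHom.ker_eq_comap_bot]
    have : RingHom.ker (algebraMap R S) = ⊥ := (RingHom.injective_iff_ker_eq_bot _).1 hψ
    rw [this]
    exact bot_le)
  exact ⟨Q, h2, h3⟩

theorem PM_pow_injective {R : Type} [CommRing R] (φ : R →+* R) (hφ : Function.Injective φ)
    (N : ℕ) : Function.Injective (φ ^ N : R →+* R) := by
  induction N with
  | zero => intro x y h; exact h
  | succ N ih =>
    rw [pow_succ]
    intro x y h
    exact hφ (ih h)

theorem PM_pow_integral {R : Type} [CommRing R] (φ : R →+* R) (hint : φ.IsIntegral)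
    (N : ℕ) : (φ ^ N : R →+* R).IsIntegral := by
  induction N with
  | zero => exact RingHom.isIntegral_of_surjective _ fun x => ⟨x, rfl⟩
  | succ N ih =>
    rw [pow_succ]
    exact RingHom.IsIntegral.trans φ (φ ^ N) hint ih

theorem PM_rad_pow {R : Type} [CommRing R] (φ : R →+* R) (I : Ideal R)
    (hI : (I.map φ).radical = I) (N : ℕ) : (I.map (φ ^ N : R →+* R)).radical = I := by
  induction N with
  | zero =>
    have h1 : (φ ^ 0 : R →+* R) = RingHom.id R := rfl
    rw [h1, Ideal.map_id, ← hI, Ideal.radical_idem]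
  | succ N ih =>
    have e : (φ ^ (N + 1) : R →+* R) = φ.comp (φ ^ N) := by
      rw [pow_succ']
      rfl
    rw [e, ← Ideal.map_map]
    apply le_antisymm
    · have h1 : I.map (φ ^ N : R →+* R) ≤ I := by
        calc I.map (φ ^ N : R →+* R) ≤ (I.map (φ ^ N : R →+* R)).radical := Ideal.le_radical
          _ = I := ih
      calc ((I.map (φ ^ N : R →+* R)).map φ).radical ≤ (I.map φ).radical :=
            Ideal.radical_mono (Ideal.map_mono h1)
        _ = I := hI
    · calc I = (I.map φ).radical := hI.symm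
        _ = ((I.map (φ ^ N : R →+* R)).radical.map φ).radical := by rw [ih]
        _ ≤ ((I.map (φ ^ N : R →+* R)).map φ).radical.radical :=
            Ideal.radical_mono (Ideal.map_radical_le φ)
        _ = ((I.map (φ ^ N : R →+* R)).map φ).radical := Ideal.radical_idem _

/-- PM: minimal primes are permuted -/
theorem perm_min {R : Type} [CommRing R] [IsDomain R] [IsIntegrallyClosed R] [IsNoetherianRing R]
    (φ : R →+* R) (hφ : Function.Injective φ) (hint : φ.IsIntegral) (I : Ideal R)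
    (hI : (I.map φ).radical = I) :
    ∃ N : ℕ, 0 < N ∧ ∀ 𝔭 ∈ I.minimalPrimes, 𝔭.comap (φ ^ N) = 𝔭 ∧ (𝔭.map (φ ^ N)).radical = 𝔭 := by
  classical
  have hle : ∀ (ψ : R →+* R), (I.map ψ).radical = I → ∀ q : Ideal R, q.IsPrime →
      I ≤ q.comap ψ → I ≤ q := by
    intro ψ hψ q hq h
    rw [← hψ]
    exact (Ideal.IsPrime.radical_le_iff hq).2 (Ideal.map_le_iff_le_comap.2 h)
  have hfin : (I.minimalPrimes).Finite := Ideal.finite_minimalPrimes_of_isNoetherianRing R I
  -- stability of the set of minimal primes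
  have hstab : ∀ p ∈ I.minimalPrimes, p.comap φ ∈ I.minimalPrimes := by
    intro p hp
    have hpp : p.IsPrime := hp.1.1
    refine ⟨⟨Ideal.comap_isPrime φ p, ?_⟩, ?_⟩
    · have h1 : I.map φ ≤ I := by
        calc I.map φ ≤ (I.map φ).radical := Ideal.le_radical
          _ = I := hI
      exact Ideal.map_le_iff_le_comap.1 (h1.trans hp.1.2)
    · rintro q ⟨hq, hIq⟩ hqp
      obtain ⟨q', h1, h2, h3⟩ := PM_going_down φ hφ hint q p hqp
      have h4 : I ≤ q' := hle φ hI q' h2 (by rw [h3]; exact hIq)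
      have h5 : p ≤ q' := hp.2 ⟨h2, h4⟩ h1
      calc p.comap φ ≤ q'.comap φ := Ideal.comap_mono h5
        _ = q := h3
  let f : I.minimalPrimes → I.minimalPrimes := fun p => ⟨p.1.comap φ, hstab p.1 p.2⟩
  have hsurj : Function.Surjective f := by
    rintro ⟨p', hp'⟩
    have hpp' : p'.IsPrime := hp'.1.1
    obtain ⟨q, hq, hqp⟩ := PM_lying_over φ hφ hint p'
    have h1 : I ≤ q := hle φ hI q hq (by rw [hqp]; exact hp'.1.2)
    obtain ⟨p, hp, hpq⟩ := Ideal.exists_minimalPrimes_le h1
    refine ⟨⟨p, hp⟩, ?_⟩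
    apply Subtype.ext
    show p.comap φ = p'
    have h2 : p.comap φ ≤ p' := by
      rw [← hqp]
      exact Ideal.comap_mono hpq
    have h3 := hstab p hp
    exact le_antisymm h2 (hp'.2 h3.1 h2)
  have : Finite I.minimalPrimes := hfin
  have hbij : Function.Bijective f := ⟨Finite.injective_iff_surjective.2 hsurj, hsurj⟩
  let e : Equiv.Perm I.minimalPrimes := Equiv.ofBijective f hbij
  have hiter : ∀ (n : ℕ) (p : I.minimalPrimes), ((e ^ n) p).1 = p.1.comap (φ ^ n) := by
    intro n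
    induction n with
    | zero => intro p; rfl
    | succ n ih =>
      intro p
      rw [pow_succ', Equiv.Perm.mul_apply]
      show ((e ^ n) p).1.comap φ = _
      rw [ih, Ideal.comap_comap, pow_succ]
      rfl
  have hNpos : 0 < orderOf e := orderOf_pos e
  have hN : ∀ p ∈ I.minimalPrimes, p.comap (φ ^ orderOf e) = p := by
    intro p hp
    have h1 := hiter (orderOf e) ⟨p, hp⟩
    rw [pow_orderOf_eq_one] at h1
    exact h1.symm
  refine ⟨orderOf e, hNpos, fun p hp => ⟨hN p hp, ?_⟩⟩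
  have hpp : p.IsPrime := hp.1.1
  apply le_antisymm
  · rw [Ideal.IsPrime.radical_le_iff hpp, Ideal.map_le_iff_le_comap, hN p hp]
  · rw [Ideal.radical_eq_sInf]
    apply le_sInf
    rintro q ⟨hpq, hq⟩
    rw [Ideal.map_le_iff_le_comap] at hpq
    obtain ⟨q', h1, h2, h3⟩ := PM_going_down (φ ^ orderOf e) (PM_pow_injective φ hφ _)
      (PM_pow_integral φ hint _) p q hpq
    have h4 : I ≤ q' := hle _ (PM_rad_pow φ I hI _) q' h2 (by rw [h3]; exact hp.1.2)
    obtain ⟨pj, hpj, hpjq⟩ := Ideal.exists_minimalPrimes_le h4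
    have h5 : pj ≤ p := by
      calc pj = pj.comap (φ ^ orderOf e) := (hN pj hpj).symm
        _ ≤ q'.comap (φ ^ orderOf e) := Ideal.comap_mono hpjq
        _ = p := h3
    exact (hp.2 hpj.1 h5).trans (hpjq.trans h1)

end TI
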