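import Pool.Agent.Helper97.TI.Defs

set_option autoImplicit false
open MvPolynomial

namespace TI

section REP

variable {R k K : Type} [CommRing R] [Field k] [Field K] [Algebra k K]

/-- common denominators -/
theorem REP1_denom {θ : R →+* k} {π : R →+* K} {φ : R →+* R} (h : RepData θ π φ)
    (s : Finset R) (x : R → k) :
    ∃ c : R, θ c ≠ 0 ∧ ∃ t : R → R, ∀ r ∈ s, x r * θ c = θ (t r) := by
  classical
  induction s using Finset.induction_on with
  | empty => exact ⟨1, by rw [map_one]; exact one_ne_zero, fun _ => 0, by simp⟩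
  | insert a s ha ih =>
    obtain ⟨c, hc, t, ht⟩ := ih
    obtain ⟨a1, b1, hb1, hx⟩ := h.frac (x a)
    refine ⟨c * b1, by rw [map_mul]; exact mul_ne_zero hc hb1,
      fun r => if r = a then a1 * c else t r * b1, ?_⟩
    intro r hr
    by_cases hra : r = a
    · subst hra
      simp only [if_true]
      rw [hx, map_mul, map_mul]
      field_simp
    · simp only [hra, if_false]
      rw [map_mul, map_mul, ← mul_assoc,
        ht r ((Finset.mem_insert.1 hr).resolve_left hra)]

/-- elements of `K` up to denominators -/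
theorem REP1_clear {θ : R →+* k} {π : R →+* K} {φ : R →+* R} (h : RepData θ π φ) {N : ℕ}
    (T : R →+* Matrix (Fin N) (Fin N) k) (hT : ∀ c, T (φ c) = Matrix.scalar (Fin N) (θ c))
    (v : Fin N → k) (x : R →₀ k) :
    ∃ c r0 : R, θ c ≠ 0 ∧ θ c • Finsupp.linearCombination k (fun r => π r) x = π r0 ∧
      θ c • Finsupp.linearCombination k (fun r => (T r).mulVec v) x = (T r0).mulVec v := by
  obtain ⟨c, hc, t, ht⟩ := REP1_denom h x.support x
  refine ⟨c, ∑ r ∈ x.support, φ (t r) * r, hc, ?_, ?_⟩
  · rw [Finsupp.linearCombination_apply, Finsupp.sum, Finset.smul_sum, map_sum]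
    refine Finset.sum_congr rfl fun r hr => ?_
    rw [map_mul, h.comp, ← ht r hr, smul_smul, Algebra.smul_def, mul_comm (θ c)]
  · rw [Finsupp.linearCombination_apply, Finsupp.sum, Finset.smul_sum, map_sum,
      Matrix.sum_mulVec]
    refine Finset.sum_congr rfl fun r hr => ?_
    rw [map_mul, hT, ← ht r hr, smul_smul, mul_comm (θ c)]
    rw [← Matrix.mulVec_mulVec]
    funext i
    simp [Matrix.scalar_apply, Matrix.mulVec_diagonal]

omit [Algebra k K] in
/-- a nonzero vector killed by the kernel -/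
theorem REP1_vec {π : R →+* K} {N : ℕ} (hN : 0 < N)
    (T : R →+* Matrix (Fin N) (Fin N) k)
    (hL : ∃ L : ℕ, ∀ p ∈ RingHom.ker π ^ L, T p = 0) :
    ∃ v : Fin N → k, v ≠ 0 ∧ ∀ p ∈ RingHom.ker π, (T p).mulVec v = 0 := by
  classical
  have hspec := Nat.find_spec hL
  have hmin := fun m (hm : m < Nat.find hL) => Nat.find_min hL hm
  obtain ⟨L', hL'⟩ : ∃ L', Nat.find hL = L' + 1 := by
    refine Nat.exists_eq_succ_of_ne_zero fun h0 => ?_
    rw [h0, pow_zero, Ideal.one_eq_top] at hspec
    have h1 := hspec 1 Submodule.mem_top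
    rw [map_one] at h1
    have h2 := congrFun (congrFun h1 ⟨0, hN⟩) ⟨0, hN⟩
    simp at h2
  rw [hL'] at hspec
  have h1 := hmin L' (by omega)
  push Not at h1
  obtain ⟨p0, hp0, hTp0⟩ := h1
  obtain ⟨u, hu⟩ : ∃ u, (T p0).mulVec u ≠ 0 := by
    by_contra hcon
    push Not at hcon
    apply hTp0
    ext i j
    have := congrFun (hcon (Pi.single j 1)) i
    simpa using this
  refine ⟨(T p0).mulVec u, hu, fun p hp => ?_⟩
  rw [Matrix.mulVec_mulVec, ← map_mul, hspec (p * p0) (by
    rw [pow_succ']
    exact Ideal.mul_mem_mul hp hp0), Matrix.zero_mulVec]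

/-- the equivariant embedding of `K` -/
theorem REP1_emb {θ : R →+* k} {π : R →+* K} {φ : R →+* R} (h : RepData θ π φ)
    {N : ℕ} (hN : 0 < N)
    (T : R →+* Matrix (Fin N) (Fin N) k) (hT : ∀ c, T (φ c) = Matrix.scalar (Fin N) (θ c))
    (hL : ∃ L : ℕ, ∀ p ∈ RingHom.ker π ^ L, T p = 0) :
    ∃ ι : K →ₗ[k] (Fin N → k), Function.Injective ι ∧
      ∀ r f, ι (π r * f) = (T r).mulVec (ι f) := by
  obtain ⟨v, hv, hker⟩ := REP1_vec hN T hL
  set f := Finsupp.linearCombination k (fun r => π r) with hf
  set g := Finsupp.linearCombination k (fun r => (T r).mulVec v) with hg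
  have hsurj : Function.Surjective f := by
    rw [← LinearMap.range_eq_top, hf, Finsupp.range_linearCombination]
    exact h.span
  have hle : LinearMap.ker f ≤ LinearMap.ker g := by
    intro x hx
    rw [LinearMap.mem_ker] at hx ⊢
    obtain ⟨c, r0, hc, h1, h2⟩ := REP1_clear h T hT v x
    rw [← hf, hx, smul_zero] at h1
    rw [← hg, hker r0 h1.symm] at h2
    exact (smul_eq_zero.1 h2).resolve_left hc
  let ι : K →ₗ[k] (Fin N → k) :=
    ((LinearMap.ker f).liftQ g hle).comp (f.quotKerEquivOfSurjective hsurj).symm.toLinearMap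
  have hι : ∀ x, ι (f x) = g x := by
    intro x
    show ((LinearMap.ker f).liftQ g hle) ((f.quotKerEquivOfSurjective hsurj).symm (f x)) = g x
    have : (f.quotKerEquivOfSurjective hsurj).symm (f x) = Submodule.Quotient.mk x := by
      rw [LinearEquiv.symm_apply_eq]
      rfl
    rw [this]
    rfl
  have hιπ : ∀ r, ι (π r) = (T r).mulVec v := by
    intro r
    have h1 := hι (Finsupp.single r 1)
    rw [hf, hg, Finsupp.linearCombination_single, Finsupp.linearCombination_single, one_smul,
      one_smul] at h1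
    exact h1
  refine ⟨ι, ?_, ?_⟩
  · rw [injective_iff_map_eq_zero]
    intro a ha
    by_contra hne
    obtain ⟨x, rfl⟩ := hsurj a
    obtain ⟨c, r0, hc, h1, -⟩ := REP1_clear h T hT v x
    rw [← hf] at h1
    have h2 : π r0 ≠ 0 := by
      rw [← h1]
      exact smul_ne_zero hc hne
    have h3 : (T r0).mulVec v = 0 := by
      rw [← hιπ, ← h1, map_smul, ha, smul_zero]
    obtain ⟨a', c', h4, h5⟩ := h.int r0 h2
    have h6 : r0 * a' - φ c' ∈ RingHom.ker π := by
      rw [RingHom.mem_ker, map_sub, h4, sub_self]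
    have h7 := hker _ h6
    rw [map_sub, Matrix.sub_mulVec, mul_comm r0, map_mul, ← Matrix.mulVec_mulVec, h3,
      Matrix.mulVec_zero, zero_sub, neg_eq_zero, hT] at h7
    apply hv
    have h8 : θ c' • v = 0 := by
      rw [← h7]
      funext i
      simp [Matrix.scalar_apply, Matrix.mulVec_diagonal]
    exact (smul_eq_zero.1 h8).resolve_left h5
  · intro r a
    obtain ⟨x, rfl⟩ := hsurj a
    induction x using Finsupp.induction_linear with
    | zero => simp
    | add x y hx hy =>
      rw [map_add, mul_add, map_add, hx, hy, map_add, Matrix.mulVec_add]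
    | single s b =>
      rw [hf, Finsupp.linearCombination_single, mul_smul_comm, map_smul, ← map_mul, hιπ, map_smul,
        hιπ, map_mul, ← Matrix.mulVec_mulVec, Matrix.mulVec_smul]

/-- adapted basis -/
theorem REP1_basis {m N : ℕ} (e : Module.Basis (Fin m) k K) (ι : K →ₗ[k] (Fin N → k))
    (hι : Function.Injective ι) :
    ∃ (N' : ℕ) (b : Module.Basis (Fin m ⊕ Fin N') k (Fin N → k)),
      ∀ i, b (Sum.inl i) = ι (e i) := by
  obtain ⟨W', hW'⟩ := Submodule.exists_isCompl (LinearMap.range ι)
  let bW : Module.Basis (Fin m) k (LinearMap.range ι) := e.map (LinearEquiv.ofInjective ι hι)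
  let bW' := Module.finBasis k W'
  refine ⟨Module.finrank k W', (bW.prod bW').map (Submodule.prodEquivOfIsCompl _ _ hW'), ?_⟩
  intro i
  rw [Module.Basis.map_apply]
  simp [bW]

/-- REP1: a nonzero representation `T` on which `ker π` is nilpotent and `φ c` acts as the scalar
`θ c` contains the regular representation, hence is block triangular with the regular
representation in the upper left block. -/
theorem rep_step {θ : R →+* k} {π : R →+* K} {φ : R →+* R} (h : RepData θ π φ)
    {m : ℕ} (e : Module.Basis (Fin m) k K) {N : ℕ} (hN : 0 < N)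
    (T : R →+* Matrix (Fin N) (Fin N) k) (hT : ∀ c, T (φ c) = Matrix.scalar (Fin N) (θ c))
    (hL : ∃ L : ℕ, ∀ p ∈ RingHom.ker π ^ L, T p = 0) :
    ∃ (N' : ℕ) (P : Matrix (Fin N) (Fin m ⊕ Fin N') k) (P' : Matrix (Fin m ⊕ Fin N') (Fin N) k)
      (T₁ : R →+* Matrix (Fin m) (Fin m) k) (T₂ : R →+* Matrix (Fin N') (Fin N') k)
      (B : R → Matrix (Fin m) (Fin N') k) (T' : R →+* Matrix (Fin m ⊕ Fin N') (Fin m ⊕ Fin N') k),
      N' < N ∧ P * P' = 1 ∧ P' * P = 1 ∧ (∀ r, T r * P = P * T' r) ∧
      (∀ r, T' r = Matrix.fromBlocks (T₁ r) (B r) 0 (T₂ r)) ∧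
      (∀ r, T₁ r = Algebra.leftMulMatrix e (π r)) ∧
      (∀ c, T₂ (φ c) = Matrix.scalar (Fin N') (θ c)) ∧
      (∃ L : ℕ, ∀ p ∈ RingHom.ker π ^ L, T₂ p = 0) := by
  classical
  obtain ⟨ι, hι, heq⟩ := REP1_emb h hN T hT hL
  obtain ⟨N', b, hb⟩ := REP1_basis e ι hι
  set P : Matrix (Fin N) (Fin m ⊕ Fin N') k := (Pi.basisFun k (Fin N)).toMatrix b with hP
  set P' : Matrix (Fin m ⊕ Fin N') (Fin N) k := b.toMatrix (Pi.basisFun k (Fin N)) with hP'
  have hPP' : P * P' = 1 := Module.Basis.toMatrix_mul_toMatrix_flip _ _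
  have hP'P : P' * P = 1 := Module.Basis.toMatrix_mul_toMatrix_flip _ _
  let T' : R →+* Matrix (Fin m ⊕ Fin N') (Fin m ⊕ Fin N') k :=
    { toFun := fun r => P' * T r * P
      map_one' := by rw [map_one, Matrix.mul_one, hP'P]
      map_mul' := fun r s => by
        rw [map_mul]
        have h1 : T r * T s = T r * (P * P') * T s := by rw [hPP', Matrix.mul_one]
        rw [h1]
        simp only [Matrix.mul_assoc]
      map_zero' := by rw [map_zero, Matrix.mul_zero, Matrix.zero_mul]
      map_add' := fun r s => by rw [map_add, Matrix.mul_add, Matrix.add_mul] }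
  have hT'def : ∀ r, T' r = P' * T r * P := fun r => rfl
  have hTP : ∀ r, T r * P = P * T' r := by
    intro r
    rw [hT'def, ← Matrix.mul_assoc, ← Matrix.mul_assoc, hPP', Matrix.one_mul]
  have hcol : ∀ j, P.col j = b j := by
    intro j
    funext i
    rfl
  -- the columns of the left blocks
  have hT'col : ∀ r i x, T' r x (Sum.inl i) =
      Matrix.fromBlocks (Algebra.leftMulMatrix e (π r)) 0 0 (0 : Matrix (Fin N') (Fin N') k) x
        (Sum.inl i) := by
    intro r i x
    have h1 : T' r x (Sum.inl i) = b.repr ((T r).mulVec (b (Sum.inl i))) x := by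
      have h2 : P'.mulVec ((T r).mulVec (b (Sum.inl i))) =
          b.repr ((T r).mulVec (b (Sum.inl i))) := by
        have := (Pi.basisFun k (Fin N)).toMatrix_mulVec_repr b ((T r).mulVec (b (Sum.inl i)))
        rw [← this]
        congr 1
      rw [← h2, hT'def, ← hcol]
      rw [Matrix.mul_assoc]
      rfl
    rw [h1, hb, ← heq]
    have h3 : π r * e i = ∑ l, (Algebra.leftMulMatrix e (π r)) l i • e l := by
      have := e.sum_repr (π r * e i)
      rw [← this]
      refine Finset.sum_congr rfl fun l _ => ?_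
      rw [Algebra.leftMulMatrix_eq_repr_mul]
    rw [h3, map_sum, map_sum]
    simp only [map_smul, ← hb]
    simp only [Module.Basis.repr_self]
    rw [Finsupp.finsetSum_apply]
    rcases x with x | x
    · simp [Finsupp.single_apply]
    · simp [Finsupp.single_apply]
  have hblocks : ∀ r, T' r = Matrix.fromBlocks (Algebra.leftMulMatrix e (π r))
      (T' r).toBlocks₁₂ 0 (T' r).toBlocks₂₂ := by
    intro r
    ext x y
    rcases y with y | y
    · rw [hT'col]
      rcases x with x | x <;> rfl
    · rcases x with x | x <;> rfl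
  let T₂ : R →+* Matrix (Fin N') (Fin N') k :=
    { toFun := fun r => (T' r).toBlocks₂₂
      map_one' := by
        rw [map_one, ← Matrix.fromBlocks_one]
        exact Matrix.toBlocks_fromBlocks₂₂ _ _ _ _
      map_mul' := fun r s => by
        have h1 := hblocks r
        have h2 := hblocks s
        rw [map_mul]
        conv_lhs => rw [h1, h2]
        rw [Matrix.fromBlocks_multiply, Matrix.toBlocks_fromBlocks₂₂, Matrix.zero_mul, zero_add]
      map_zero' := by rw [map_zero]; rfl
      map_add' := fun r s => by rw [map_add]; rfl }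
  refine ⟨N', P, P', (Algebra.leftMulMatrix e).toRingHom.comp π, T₂,
    fun r => (T' r).toBlocks₁₂, T', ?_, hPP', hP'P, hTP, hblocks, fun r => rfl, ?_, ?_⟩
  · have h1 := Module.finrank_eq_card_basis b
    rw [Module.finrank_fin_fun, Fintype.card_sum, Fintype.card_fin, Fintype.card_fin] at h1
    have hm : m ≠ 0 := by
      rintro rfl
      have : Subsingleton K := e.equivFun.toEquiv.subsingleton
      exact not_subsingleton K this
    omega
  · intro c
    show (P' * T (φ c) * P).toBlocks₂₂ = _
    have h1 : P' * T (φ c) * P = θ c • (1 : Matrix (Fin m ⊕ Fin N') (Fin m ⊕ Fin N') k) := by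
      have h2 : Matrix.scalar (Fin N) (θ c) = θ c • (1 : Matrix (Fin N) (Fin N) k) := by
        rw [Matrix.smul_one_eq_diagonal]
        rfl
      rw [hT, h2, Matrix.mul_smul, Matrix.mul_one, Matrix.smul_mul, hP'P]
    rw [h1]
    ext i j
    simp [Matrix.toBlocks₂₂, Matrix.scalar_apply, Matrix.one_apply, Matrix.diagonal_apply]
  · obtain ⟨L, hL⟩ := hL
    refine ⟨L, fun p hp => ?_⟩
    show (P' * T p * P).toBlocks₂₂ = 0
    rw [hL p hp, Matrix.mul_zero, Matrix.zero_mul]
    rfl

end REP

end TI
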